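import Pool.Agent.Helper60.PF.Defs

/-!
Packet PERFLAT for MP_ef0af8_co.
-/

set_option autoImplicit false

namespace Pool.Agent.Helper10.PFPerFlat

open Pool.Agent.Helper60.PF

open Classical in
theorem sum_le (h1 : Overlap) {d : ℕ} (X D : Finset (E d)) (y : E d → E d) (r : E d → ℝ)
    (Q : E d → E d → Prop)
    (hr : ∀ a ∈ X, ∀ b ∈ X, a ≠ b → r a ≤ ‖a - b‖ ∧ r b ≤ ‖a - b‖)
    (hQ : ∀ a ∈ X, ∀ x ∈ D, Q a x → ‖y x - a‖ ≤ r a) :
    ∑ a ∈ X, (D.filter (Q a)).card ≤ (5 ^ d + 1) * D.card := by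
  have e : ∑ a ∈ X, (D.filter (Q a)).card = ∑ x ∈ D, (X.filter (fun a => Q a x)).card :=
    Finset.sum_card_bipartiteAbove_eq_sum_card_bipartiteBelow Q
  rw [e]
  have h2 : ∀ x ∈ D, (X.filter (fun a => Q a x)).card ≤ 5 ^ d + 1 := by
    intro x hx
    apply h1 d _ (y x) r
    · intro a ha b hb hab
      exact hr a (Finset.mem_filter.1 ha).1 b (Finset.mem_filter.1 hb).1 hab
    · intro a ha
      exact hQ a (Finset.mem_filter.1 ha).1 x hx (Finset.mem_filter.1 ha).2
  calc ∑ x ∈ D, (X.filter (fun a => Q a x)).card ≤ ∑ _x ∈ D, (5 ^ d + 1) :=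
        Finset.sum_le_sum h2
    _ = (5 ^ d + 1) * D.card := by rw [Finset.sum_const, smul_eq_mul, mul_comm]

open Classical in
theorem markov {α : Type*} (X : Finset α) (f : α → ℕ) (c : ℝ) (hc : 0 < c)
    (hsum : ((∑ a ∈ X, f a : ℕ) : ℝ) ≤ c) :
    ((X.filter (fun a => ¬ ((f a : ℝ) * X.card ≤ 4 * c))).card : ℝ) ≤ (X.card : ℝ) / 4 := by
  set Bd := X.filter (fun a => ¬ ((f a : ℝ) * X.card ≤ 4 * c)) with hBd
  have h1 : (Bd.card : ℝ) * (4 * c) ≤ ∑ a ∈ Bd, (f a : ℝ) * X.card := by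
    rw [← nsmul_eq_mul]
    apply Finset.card_nsmul_le_sum
    intro a ha
    exact (not_le.1 (Finset.mem_filter.1 ha).2).le
  have h2 : ∑ a ∈ Bd, (f a : ℝ) * X.card ≤ ∑ a ∈ X, (f a : ℝ) * X.card :=
    Finset.sum_le_sum_of_subset_of_nonneg (Finset.filter_subset _ _)
      (fun _ _ _ => by positivity)
  have h3 : ∑ a ∈ X, (f a : ℝ) * X.card = ((∑ a ∈ X, f a : ℕ) : ℝ) * X.card := by
    rw [← Finset.sum_mul, Nat.cast_sum]
  have h4 : ((∑ a ∈ X, f a : ℕ) : ℝ) * X.card ≤ c * X.card :=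
    mul_le_mul_of_nonneg_right hsum (Nat.cast_nonneg _)
  have h5 : (Bd.card : ℝ) * (4 * c) ≤ c * X.card := by linarith
  have h6 : (Bd.card : ℝ) * 4 ≤ X.card := by
    by_contra h
    push Not at h
    nlinarith
  linarith

open Classical in
theorem perFlat (h1 : Overlap) (h3 : SectorIn) : PerFlat := by
  intro d N ε κ t c hdir hε ht hκ hεκ M hM v A B hk
  set X : Finset (E d) := A.filter (fun a => M a + v ∈ B) with hX
  -- the map M is bijective
  have hinj : Function.Injective M := by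
    rw [injective_iff_map_eq_zero]
    intro x hx
    have h := (hM x).1
    rw [hx, norm_zero] at h
    have : ‖x‖ ≤ 0 := by
      by_contra hc
      push Not at hc
      nlinarith
    exact norm_le_zero_iff.1 this
  have hsurj : Function.Surjective M := LinearMap.injective_iff_surjective.1 hinj
  -- nearest neighbours
  have hnn : ∀ a ∈ X, ∃ b ∈ X, b ≠ a ∧ ∀ b' ∈ X, b' ≠ a → ‖a - b‖ ≤ ‖a - b'‖ := by
    intro a ha
    have hne : (X.erase a).Nonempty := by
      rw [← Finset.card_pos, Finset.card_erase_of_mem ha]; omega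
    obtain ⟨b, hb, hmin⟩ := Finset.exists_min_image (X.erase a) (fun b => ‖a - b‖) hne
    refine ⟨b, Finset.mem_of_mem_erase hb, Finset.ne_of_mem_erase hb, ?_⟩
    intro b' hb' hne'
    exact hmin b' (Finset.mem_erase.2 ⟨hne', hb'⟩)
  choose! s hs1 hs2 hs3 using hnn
  set r : E d → ℝ := fun a => ‖a - s a‖ with hr
  have hsep : ∀ a ∈ X, ∀ b ∈ X, a ≠ b → r a ≤ ‖a - b‖ ∧ r b ≤ ‖a - b‖ := by
    intro a ha b hb hab
    refine ⟨hs3 a ha b hb (Ne.symm hab), ?_⟩
    rw [norm_sub_rev]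
    exact hs3 b hb a ha hab
  have hXA : ∀ a ∈ X, a ∈ A := fun a ha => (Finset.mem_filter.1 ha).1
  have hXB : ∀ a ∈ X, M a + v ∈ B := fun a ha => (Finset.mem_filter.1 ha).2
  -- first sum
  have hsumA : ∑ a ∈ X, rk c A (s a) a ≤ (5 ^ d + 1) * A.card := by
    have hh := sum_le h1 X A id r (fun a x => x ≠ s a ∧ c (x - s a) = c (a - s a) ∧
      ‖x - s a‖ ≤ ‖a - s a‖) hsep
    unfold rk
    convert hh ?_ using 5
    rintro a ha x hx ⟨hx1, hx2, hx3⟩
    have hid : ∀ x : E d, 1 * ‖x‖ ≤ ‖(LinearMap.id : E d →ₗ[ℝ] E d) x‖ ∧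
        ‖(LinearMap.id : E d →ₗ[ℝ] E d) x‖ ≤ κ * 1 * ‖x‖ := by
      intro x
      simp only [LinearMap.id_coe, id_eq, one_mul, mul_one, le_refl, true_and]
      nlinarith [norm_nonneg x]
    have h := h3 d N ε κ 1 c hdir hε one_pos hεκ LinearMap.id hid (a - s a) (x - s a)
      (sub_ne_zero.2 (hs2 a ha).symm) (sub_ne_zero.2 hx1) hx2 hx3
    have e : x - s a - (a - s a) = x - a := by abel
    rw [e] at h
    exact h
  -- second sum
  have hsumB : ∑ a ∈ X, rk c B (M (s a) + v) (M a + v) ≤ (5 ^ d + 1) * B.card := by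
    choose g hg using hsurj
    have hh := sum_le h1 X B (fun b => g (b - v)) r (fun a b => b ≠ M (s a) + v ∧
      c (b - (M (s a) + v)) = c (M a + v - (M (s a) + v)) ∧
      ‖b - (M (s a) + v)‖ ≤ ‖M a + v - (M (s a) + v)‖) hsep
    unfold rk
    convert hh ?_ using 5
    rintro a ha b hb ⟨hx1, hx2, hx3⟩
    have hMy : M (g (b - v)) = b - v := hg _
    have hw : M (g (b - v) - s a) = b - (M (s a) + v) := by
      rw [map_sub, hMy]; abel
    have hu : M (a - s a) = M a + v - (M (s a) + v) := by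
      rw [map_sub]; abel
    have hw0 : g (b - v) - s a ≠ 0 := by
      intro h0
      rw [h0, map_zero] at hw
      exact hx1 (sub_eq_zero.1 hw.symm)
    have h := h3 d N ε κ t c hdir hε ht hεκ M hM (a - s a) (g (b - v) - s a)
      (sub_ne_zero.2 (hs2 a ha).symm) hw0 (by rw [hw, hu]; exact hx2) (by rw [hw, hu]; exact hx3)
    have e : g (b - v) - s a - (a - s a) = g (b - v) - a := by abel
    rw [e] at h
    exact h
  have hXne : X.Nonempty := by rw [← Finset.card_pos]; omega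
  obtain ⟨a0, ha0⟩ := hXne
  have hA0 : 0 < A.card := Finset.card_pos.2 ⟨a0, hXA a0 ha0⟩
  have hB0 : 0 < B.card := Finset.card_pos.2 ⟨_, hXB a0 ha0⟩
  have hcA : (0 : ℝ) < (5 ^ d + 1) * A.card := by positivity
  have hcB : (0 : ℝ) < (5 ^ d + 1) * B.card := by positivity
  have hm1 := markov X (fun a => rk c A (s a) a) _ hcA (by exact_mod_cast hsumA)
  have hm2 := markov X (fun a => rk c B (M (s a) + v) (M a + v)) _ hcB (by exact_mod_cast hsumB)
  set B1 := X.filter (fun a => ¬ (((rk c A (s a) a : ℕ) : ℝ) * X.card ≤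
    4 * ((5 ^ d + 1) * A.card))) with hB1
  set B2 := X.filter (fun a => ¬ (((rk c B (M (s a) + v) (M a + v) : ℕ) : ℝ) * X.card ≤
    4 * ((5 ^ d + 1) * B.card))) with hB2
  set G := X \ (B1 ∪ B2) with hG
  have hGcard : (X.card : ℝ) / 2 ≤ (G.card : ℝ) := by
    have h4 : X.card ≤ G.card + (B1 ∪ B2).card := by
      have := Finset.card_le_card_sdiff_add_card (s := X) (t := (B1 ∪ B2))
      exact this
    have h5 : (B1 ∪ B2).card ≤ B1.card + B2.card := Finset.card_union_le _ _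
    have h6 : (X.card : ℝ) ≤ G.card + (B1.card + B2.card) := by exact_mod_cast h4.trans (by omega)
    linarith
  refine hGcard.trans ?_
  have hinjG : Set.InjOn (fun a => (s a, a)) (G : Set (E d)) := by
    intro a _ b _ hab
    exact (Prod.ext_iff.1 hab).2
  have hcard := Finset.card_image_of_injOn hinjG
  rw [← hcard]
  norm_cast
  apply Finset.card_le_card
  intro z hz
  obtain ⟨a, ha, rfl⟩ := Finset.mem_image.1 hz
  rw [hG, Finset.mem_sdiff, Finset.mem_union, not_or] at ha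
  obtain ⟨haX, hn1, hn2⟩ := ha
  rw [hB1, Finset.mem_filter, not_and, not_not] at hn1
  rw [hB2, Finset.mem_filter, not_and, not_not] at hn2
  have hn1' := hn1 haX
  have hn2' := hn2 haX
  rw [Finset.mem_filter, Finset.mem_product]
  refine ⟨⟨hXA _ (hs1 a haX), hXA _ haX⟩, hs2 a haX, hXB _ (hs1 a haX), hXB _ haX, ?_, ?_⟩
  · have h := hn1'
    rw [← mul_assoc] at h
    exact_mod_cast h
  · have h := hn2'
    rw [← mul_assoc] at h
    exact_mod_cast h

end Pool.Agent.Helper10.PFPerFlat
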